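import Pool.Agent.Helper51.RP.Goals2

set_option autoImplicit false

namespace Pool.Agent.Helper31.RP

open NumberField Polynomial Module IsDedekindDomain Pool.Agent.Helper51.SigLeo
open Pool.Agent.Helper51.RP

section alg

variable {F : Type} [Field F] {m : ℕ} [NeZero m]

/-- the shift on functions on `ZMod m` -/
def sh (F : Type) [Field F] (m : ℕ) : (ZMod m → F) →ₗ[F] (ZMod m → F) where
  toFun f := fun i => f (i - 1)
  map_add' f g := rfl
  map_smul' c f := rfl

lemma sh_pow (j : ℕ) (f : ZMod m → F) (i : ZMod m) : (sh F m ^ j) f i = f (i - j) := by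
  induction j generalizing i with
  | zero => simp
  | succ j ih =>
    rw [pow_succ']
    show (sh F m ((sh F m ^ j) f)) i = _
    show (sh F m ^ j) f (i - 1) = _
    rw [ih]
    congr 1
    push_cast
    ring

lemma aeval_sh (A : F[X]) (f : ZMod m → F) (i : ZMod m) :
    (aeval (sh F m) A) f i = ∑ j ∈ A.support, A.coeff j * f (i - j) := by
  rw [aeval_eq_sum_range' (n := A.natDegree + 1) (by omega)]
  simp only [LinearMap.sum_apply, LinearMap.smul_apply, Finset.sum_apply, Pi.smul_apply, smul_eq_mul,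
    sh_pow]
  symm
  apply Finset.sum_subset
  · intro j hj
    simp only [Finset.mem_range]
    exact Nat.lt_succ_of_le (le_natDegree_of_mem_supp j hj)
  · intro j _ hj
    rw [notMem_support_iff.1 hj, zero_mul]

lemma aeval_sh_range (A : F[X]) (n : ℕ) (hn : A.natDegree < n) (f : ZMod m → F) (i : ZMod m) :
    (aeval (sh F m) A) f i = ∑ j ∈ Finset.range n, A.coeff j * f (i - j) := by
  rw [aeval_eq_sum_range' (n := n) hn]
  simp only [LinearMap.sum_apply, LinearMap.smul_apply, Finset.sum_apply, Pi.smul_apply, smul_eq_mul,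
    sh_pow]

lemma sh_m : sh F m ^ m = 1 := by
  refine LinearMap.ext fun f => funext fun i => ?_
  rw [sh_pow]
  simp

/-- the delta function -/
def dl (F : Type) [Field F] (m : ℕ) : ZMod m → F := fun i => if i = 0 then 1 else 0

lemma dvd_of_dl (A : F[X]) (h : (aeval (sh F m) A) (dl F m) = 0) : X ^ m - 1 ∣ A := by
  have hm : 0 < m := Nat.pos_of_ne_zero (NeZero.ne m)
  have hmon : (X ^ m - 1 : F[X]).Monic := by
    simpa using monic_X_pow_sub_C (1 : F) hm.ne'
  rw [← modByMonic_eq_zero_iff_dvd hmon]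
  set R := A %ₘ (X ^ m - 1) with hR
  have h1 : A = R + (X ^ m - 1) * (A /ₘ (X ^ m - 1)) := (modByMonic_add_div A _).symm
  have h2 : (aeval (sh F m) R) (dl F m) = 0 := by
    have h3 := h
    rw [h1, mul_comm] at h3
    simp only [map_add, map_mul, map_sub, map_pow, aeval_X, map_one, sh_m, sub_self, mul_zero,
      add_zero] at h3
    exact h3
  have hdeg : R.degree < m := by
    have := degree_modByMonic_lt A hmon
    have h4 : (X ^ m - 1 : F[X]).degree = m := by
      simpa using degree_X_pow_sub_C hm (1 : F)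
    rwa [h4] at this
  by_contra hne
  have hnd : R.natDegree < m := (natDegree_lt_iff_degree_lt hne).2 hdeg
  apply hne
  ext j
  by_cases hj : j < m
  · have h5 := congrFun h2 (j : ZMod m)
    rw [aeval_sh_range R m hnd] at h5
    rw [Finset.sum_eq_single j] at h5
    · simpa [dl] using h5
    · intro b hb hbj
      have : ((j : ZMod m) - b) ≠ 0 := by
        intro h6
        have h7 : (j : ZMod m) = b := sub_eq_zero.1 h6
        have h8 := (ZMod.natCast_eq_natCast_iff' j b m).1 h7
        rw [Nat.mod_eq_of_lt hj, Nat.mod_eq_of_lt (Finset.mem_range.1 hb)] at h8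
        exact hbj h8.symm
      simp [dl, this]
    · intro hj'
      exact absurd (Finset.mem_range.2 hj) hj'
  · rw [coeff_zero]
    exact coeff_eq_zero_of_natDegree_lt (by omega)

/-- the polynomial of a function -/
noncomputable def pl (n : ZMod m → F) : F[X] := ∑ a : ZMod m, C (n a) * X ^ a.val

lemma pl_sh (n f : ZMod m → F) (i : ZMod m) :
    (aeval (sh F m) (pl n)) f i = ∑ a : ZMod m, n a * f (i - a) := by
  unfold pl
  rw [map_sum]
  simp only [map_mul, map_pow, aeval_X, aeval_C, LinearMap.sum_apply, Finset.sum_apply]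
  apply Finset.sum_congr rfl
  intro a _
  show (algebraMap F (Module.End F (ZMod m → F)) (n a) * sh F m ^ a.val) f i = _
  rw [Module.algebraMap_end_eq_smul_id]
  show (n a • (sh F m ^ a.val) f) i = _
  rw [Pi.smul_apply, sh_pow, smul_eq_mul, ZMod.natCast_zmod_val]

lemma pl_dl (n : ZMod m → F) : (aeval (sh F m) (pl n)) (dl F m) = n := by
  funext i
  rw [pl_sh, Finset.sum_eq_single i]
  · simp [dl]
  · intro b _ hb
    have : i - b ≠ 0 := fun h => hb (sub_eq_zero.1 h).symm
    simp [dl, this]
  · intro h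
    exact absurd (Finset.mem_univ _) h

theorem key (P : F[X]) (hmF : (m : F) ≠ 0) (hP : Irreducible P) (hd : P ∣ X ^ m - 1)
    (n w : ZMod m → F) (ha : ∀ i : ZMod m, ∑ j ∈ P.support, P.coeff j * n (i - j) = 0)
    (hb : ∀ l : ZMod m, ∑ j ∈ P.support, P.coeff j * w (l + j) = 0)
    (hc : ∀ i : ZMod m, ∑ j : ZMod m, n (j - i) * w j = 0) (hw : w 0 ≠ 0) : n = 0 := by
  obtain ⟨Q, hQ⟩ := hd
  have hcop : IsCoprime P Q := by
    have hs : (X ^ m - 1 : F[X]).Separable := X_pow_sub_one_separable_iff.2 hmF
    rw [hQ] at hs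
    exact hs.isCoprime
  -- the dual function
  set ws : ZMod m → F := fun i => w (-i) with hws
  have h1 : (aeval (sh F m) P) ws = 0 := by
    funext i
    rw [aeval_sh]
    have := hb (-i)
    simp only [Pi.zero_apply]
    rw [← this]
    apply Finset.sum_congr rfl
    intro j _
    show P.coeff j * w (-(i - j)) = _
    congr 2
    ring
  have h2 : (aeval (sh F m) (pl n)) ws = 0 := by
    funext k
    rw [pl_sh]
    have := hc (-k)
    simp only [Pi.zero_apply]
    rw [← this]
    apply Finset.sum_nbij' (fun a => a - k) (fun j => j + k)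
    · intro a _; exact Finset.mem_univ _
    · intro a _; exact Finset.mem_univ _
    · intro a _; ring
    · intro a _; ring
    · intro a _
      show n a * w (-(k - a)) = n (a - k - -k) * w (a - k)
      congr 2 <;> ring_nf
  have h3 : P ∣ pl n := by
    rcases (EuclideanDomain.dvd_or_coprime P (pl n) hP) with h | h
    · exact h
    · exfalso
      obtain ⟨a, b, hab⟩ := h
      have h4 : (aeval (sh F m) (a * P + b * pl n)) ws = ws := by
        rw [hab]; simp
      rw [map_add, map_mul, map_mul] at h4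
      have h5 : ws = 0 := by
        rw [← h4]
        show (aeval (sh F m) a) ((aeval (sh F m) P) ws) +
          (aeval (sh F m) b) ((aeval (sh F m) (pl n)) ws) = 0
        rw [h1, h2, map_zero, map_zero, add_zero]
      have h6 := congrFun h5 0
      simp [hws] at h6
      exact hw h6
  have h7 : (aeval (sh F m) (P * pl n)) (dl F m) = 0 := by
    rw [map_mul]
    show (aeval (sh F m) P) ((aeval (sh F m) (pl n)) (dl F m)) = 0
    rw [pl_dl]
    funext i
    rw [aeval_sh]
    exact ha i
  have h8 : Q ∣ pl n := by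
    have := dvd_of_dl _ h7
    rw [hQ] at this
    exact (mul_dvd_mul_iff_left hP.ne_zero).1 this
  have h9 : X ^ m - 1 ∣ pl n := by
    rw [hQ]
    exact hcop.mul_dvd h3 h8
  obtain ⟨B, hB⟩ := h9
  rw [← pl_dl n, hB, map_mul]
  simp [sh_m]

end alg

section ord

variable {M : Type} [Field M] [NumberField M] (v : HeightOneSpectrum (𝓞 M))

lemma ordv_mul {x y : M} (hx : x ≠ 0) (hy : y ≠ 0) : ordv v (x * y) = ordv v x + ordv v y := by
  unfold ordv
  rw [map_mul, WithZero.log_mul (by simpa using hx) (by simpa using hy)]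
  ring

lemma ordv_pow (x : M) (n : ℕ) : ordv v (x ^ n) = n * ordv v x := by
  unfold ordv
  rw [map_pow, WithZero.log_pow, nsmul_eq_mul]
  ring

lemma ordv_one : ordv v (1 : M) = 0 := by
  unfold ordv
  simp

lemma ordv_prod (S : Finset ℕ) (f : ℕ → M) (hf : ∀ j ∈ S, f j ≠ 0) :
    ordv v (∏ j ∈ S, f j) = ∑ j ∈ S, ordv v (f j) := by
  classical
  induction S using Finset.induction_on with
  | empty => simp [ordv_one]
  | insert a S ha ih =>
    rw [Finset.prod_insert ha, Finset.sum_insert ha, ordv_mul v (hf a (Finset.mem_insert_self a S)),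
      ih (fun j hj => hf j (Finset.mem_insert_of_mem hj))]
    exact Finset.prod_ne_zero_iff.2 (fun j hj => hf j (Finset.mem_insert_of_mem hj))

end ord

lemma sum_zmod {R : Type} [AddCommMonoid R] (m : ℕ) [NeZero m] (f : ZMod m → R) :
    ∑ a : ZMod m, f a = ∑ j ∈ Finset.range m, f (j : ZMod m) := by
  symm
  apply Finset.sum_nbij' (fun j : ℕ => (j : ZMod m)) (fun a : ZMod m => a.val)
  · intro a _; exact Finset.mem_univ _
  · intro a _; exact Finset.mem_range.2 (ZMod.val_lt a)
  · intro a ha
    rw [ZMod.val_natCast, Nat.mod_eq_of_lt (Finset.mem_range.1 ha)]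
  · intro a _
    exact ZMod.natCast_zmod_val a
  · intro a _
    rfl

lemma pol_apply {p : ℕ} {K M : Type} [Field K] [Field M] [Algebra K M] (P : (ZMod p)[X])
    (δ : M ≃ₐ[K] M) (x : Mˣ) :
    ((pol P δ x : Mˣ) : M) = ∏ j ∈ P.support, ((δ ^ j : M ≃ₐ[K] M) (x : M)) ^ (P.coeff j).val := by
  unfold pol
  rw [MonoidHom.finsetProd_apply]
  push_cast
  rfl

/-- S_STP -/
theorem s_stp : S_STP := by
  intro p _ K M _ _ _ _ m δ P hcop hδ hP hd 𝔮 ψ hψ hψ0 x hx hsum i
  have hm0 : m ≠ 0 := by
    rintro rfl
    have : p = 1 := by simpa using hcop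
    exact (Fact.out : p.Prime).one_lt.ne' this
  haveI : NeZero m := ⟨hm0⟩
  have hmF : (m : ZMod p) ≠ 0 := by
    intro h
    rw [ZMod.natCast_eq_zero_iff] at h
    have := (Nat.Prime.coprime_iff_not_dvd (Fact.out : p.Prime)).1 hcop.symm
    exact this h
  -- the group elements
  set u : ZMod m → (M ≃ₐ[K] M) := fun a => δ ^ a.val with hu
  have hu_nat : ∀ k : ℕ, u (k : ZMod m) = δ ^ k := by
    intro k
    rw [hu]
    simp only [ZMod.val_natCast]
    exact (pow_eq_pow_mod k hδ).symm
  have hu_add : ∀ a b : ZMod m, u (a + b) = u a * u b := by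
    intro a b
    have h1 : a + b = ((a.val + b.val : ℕ) : ZMod m) := by
      push_cast
      rw [ZMod.natCast_zmod_val, ZMod.natCast_zmod_val]
    rw [h1, hu_nat, pow_add]
  have hu_zero : u 0 = 1 := by
    have := hu_nat 0
    simpa using this
  have hu_neg : ∀ a : ZMod m, u (-a) = (u a)⁻¹ := by
    intro a
    rw [eq_inv_iff_mul_eq_one, ← hu_add, neg_add_cancel, hu_zero]
  set n : ZMod m → ZMod p := fun a => ((ordv 𝔮 (u (-a) (x : M)) : ℤ) : ZMod p) with hn
  set w : ZMod m → ZMod p := fun a => ψ (cj δ a.val 𝔮.asIdeal) with hw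
  have hxne : ∀ g : M ≃ₐ[K] M, g (x : M) ≠ 0 := by
    intro g h
    exact x.ne_zero ((map_eq_zero_iff g g.injective).1 h)
  have hcj : ∀ k : ℕ, cj δ k 𝔮.asIdeal = cj δ (k : ZMod m).val 𝔮.asIdeal := by
    intro k
    unfold cj
    have h1 : (δ ^ k : M ≃ₐ[K] M) = δ ^ (k : ZMod m).val := by
      rw [ZMod.val_natCast]
      exact pow_eq_pow_mod k hδ
    rw [h1]
  have hzero : n = 0 := by
    apply key P hmF hP hd n w
    · intro i
      obtain ⟨y, hy⟩ := hx
      have h1 : ordv 𝔮 (u (-i) ((pol P δ x : Mˣ) : M)) =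
          ∑ j ∈ P.support, ((P.coeff j).val : ℤ) * ordv 𝔮 (u (-(i - j)) (x : M)) := by
        rw [pol_apply, map_prod, ordv_prod]
        · apply Finset.sum_congr rfl
          intro j _
          rw [map_pow, ordv_pow]
          congr 2
          have h2 : u (-(i - j)) = u (-i) * δ ^ j := by
            rw [← hu_nat, ← hu_add]
            congr 1
            ring
          rw [h2]
          rfl
        · intro j _
          rw [map_pow]
          apply pow_ne_zero
          have := hxne (u (-i) * δ ^ j)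
          exact this
      have h3 : ordv 𝔮 (u (-i) ((pol P δ x : Mˣ) : M)) = p * ordv 𝔮 (u (-i) (y : M)) := by
        rw [hy]
        push_cast
        rw [map_pow, ordv_pow]
      rw [h3] at h1
      have h4 := congrArg (fun z : ℤ => (z : ZMod p)) h1
      simp only [Int.cast_mul, Int.cast_natCast, CharP.cast_eq_zero, zero_mul, Int.cast_sum,
        ZMod.natCast_zmod_val] at h4
      exact h4.symm
    · intro l
      have h1 := hψ l.val
      rw [← h1]
      apply Finset.sum_congr rfl
      intro j _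
      show P.coeff j * ψ (cj δ (l + j).val 𝔮.asIdeal) = _
      rw [hcj (l.val + j)]
      congr 4
      push_cast
      rw [ZMod.natCast_zmod_val]
    · intro i
      have h1 := hsum i.val
      rw [sum_zmod, ← h1]
      apply Finset.sum_congr rfl
      intro j hj
      show ((ordv 𝔮 (u (-((j : ZMod m) - i)) (x : M)) : ℤ) : ZMod p) *
        ψ (cj δ (j : ZMod m).val 𝔮.asIdeal) = _
      rw [← hcj j]
      congr 3
      have h2 : u (-((j : ZMod m) - i)) = (δ ^ j)⁻¹ * δ ^ i.val := by
        rw [← hu_nat, ← hu_nat, ← hu_neg, ← hu_add]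
        congr 1
        rw [ZMod.natCast_zmod_val]
        ring
      rw [h2]
      rfl
    · show ψ (cj δ (0 : ZMod m).val 𝔮.asIdeal) ≠ 0
      have h1 : cj δ (0 : ZMod m).val 𝔮.asIdeal = 𝔮.asIdeal := by
        rw [ZMod.val_zero]
        unfold cj
        rw [pow_zero]
        have h2 : RingOfIntegers.mapRingHom (((1 : M ≃ₐ[K] M) : M →+* M)) = RingHom.id (𝓞 M) := by
          ext a
          rfl
        rw [h2, Ideal.map_id]
      rw [h1]
      exact hψ0
  have h5 := congrFun hzero (-(i : ZMod m))
  rw [hn] at h5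
  simp only [neg_neg, Pi.zero_apply] at h5
  rw [hu_nat] at h5
  exact (ZMod.intCast_zmod_eq_zero_iff_dvd _ p).1 h5

end Pool.Agent.Helper31.RP
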